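import Mathlib

/-!
# Uniqueness of the hyperelliptic involution on infinite type surfaces

If a hyperelliptic Riemann surface of infinite type has a hyperelliptic involution with finite limit
set, then this is its only hyperelliptic involution.

Idea: let `π₁, π₂` be the two projections, normalised by Moebius maps so that infinity is in both
limit sets. Near the puncture `∞` of the first quotient, `π₂` omits a disc, so
`g = 1 / (π₂ - w₀)` is bounded there, and `(g - g ∘ τ₁)^2` descends to a bounded holomorphic function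
of `π₁` near `∞`, vanishing at the branch values, which accumulate at `∞`. So it vanishes
identically, `π₂ ∘ τ₁ = π₂`, and `τ₁ = τ₂`.
-/

open scoped Manifold Topology
open Set Filter Metric

namespace Pool.Agent.Results.MP_e6fbad_gt.UniqueInvolution

variable {R : Type*} [TopologicalSpace R] [ChartedSpace ℂ R] [IsManifold 𝓘(ℂ) 1 R]

lemma map_symm (x : R) :
    map (extChartAt 𝓘(ℂ) x).symm (𝓝 (extChartAt 𝓘(ℂ) x x)) = 𝓝 x := by
  have hI : range (𝓘(ℂ) : ModelWithCorners ℂ ℂ ℂ) = univ :=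
    ModelWithCorners.Boundaryless.range_eq_univ
  rw [← map_extChartAt_symm_nhdsWithin_range (I := 𝓘(ℂ)) x, hI, nhdsWithin_univ]

lemma analytic_chart {h : R → ℂ} {x : R}
    (hd : ∀ᶠ y in 𝓝 x, MDifferentiableAt 𝓘(ℂ) 𝓘(ℂ) h y) :
    AnalyticAt ℂ (h ∘ (extChartAt 𝓘(ℂ) x).symm) (extChartAt 𝓘(ℂ) x x) := by
  set e := extChartAt 𝓘(ℂ) x with he
  have hI : range (𝓘(ℂ) : ModelWithCorners ℂ ℂ ℂ) = univ :=
    ModelWithCorners.Boundaryless.range_eq_univ
  have H₁ : 𝓝[range (𝓘(ℂ) : ModelWithCorners ℂ ℂ ℂ)] (e x) = 𝓝 (e x) := by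
    rw [hI, nhdsWithin_univ]
  have H₂ : map e.symm (𝓝 (e x)) = 𝓝 x := map_symm x
  rw [Complex.analyticAt_iff_eventually_differentiableAt]
  have : e.target ∈ 𝓝 (e x) := H₁ ▸ extChartAt_target_mem_nhdsWithin x
  filter_upwards [this, Tendsto.eventually H₂.le hd] with y hyt hy₂
  have hys : e.symm y ∈ (chartAt ℂ x).source := by
    rw [← extChartAt_source 𝓘(ℂ) x]
    exact (extChartAt 𝓘(ℂ) x).map_target hyt
  have hfy : h (e.symm y) ∈ (chartAt ℂ (0 : ℂ)).source := mem_univ _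
  rw [mdifferentiableAt_iff_of_mem_source hys hfy, hI, differentiableWithinAt_univ,
    e.right_inv hyt] at hy₂
  exact hy₂.2

lemma tendsto_chart_ne (x : R) :
    Tendsto (extChartAt 𝓘(ℂ) x) (𝓝[≠] x) (𝓝[≠] (extChartAt 𝓘(ℂ) x x)) := by
  rw [tendsto_nhdsWithin_iff]
  refine ⟨(continuousAt_extChartAt x).tendsto.mono_left nhdsWithin_le_nhds, ?_⟩
  have h1 : (extChartAt 𝓘(ℂ) x).source ∈ 𝓝 x := extChartAt_source_mem_nhds x
  filter_upwards [nhdsWithin_le_nhds h1, self_mem_nhdsWithin] with y hy hne heq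
  exact hne ((extChartAt 𝓘(ℂ) x).injOn hy (mem_extChartAt_source x) heq)

lemma tendsto_symm_ne (x : R) :
    Tendsto (extChartAt 𝓘(ℂ) x).symm (𝓝[≠] (extChartAt 𝓘(ℂ) x x)) (𝓝[≠] x) := by
  rw [tendsto_nhdsWithin_iff]
  refine ⟨(map_symm x).le.trans' (map_mono nhdsWithin_le_nhds), ?_⟩
  have hI : range (𝓘(ℂ) : ModelWithCorners ℂ ℂ ℂ) = univ :=
    ModelWithCorners.Boundaryless.range_eq_univ
  have H₁ : 𝓝[range (𝓘(ℂ) : ModelWithCorners ℂ ℂ ℂ)] (extChartAt 𝓘(ℂ) x x) =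
      𝓝 (extChartAt 𝓘(ℂ) x x) := by
    rw [hI, nhdsWithin_univ]
  have h1 : (extChartAt 𝓘(ℂ) x).target ∈ 𝓝 (extChartAt 𝓘(ℂ) x x) :=
    H₁ ▸ extChartAt_target_mem_nhdsWithin x
  filter_upwards [nhdsWithin_le_nhds h1, self_mem_nhdsWithin] with y hy hne heq
  apply hne
  have := (extChartAt 𝓘(ℂ) x).right_inv hy
  rw [mem_singleton_iff.1 heq] at this
  exact this.symm

/-- local identity principle -/
lemma ident_local {h₁ h₂ : R → ℂ} {x : R}
    (hd₁ : ∀ᶠ y in 𝓝 x, MDifferentiableAt 𝓘(ℂ) 𝓘(ℂ) h₁ y)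
    (hd₂ : ∀ᶠ y in 𝓝 x, MDifferentiableAt 𝓘(ℂ) 𝓘(ℂ) h₂ y)
    (hf : ∃ᶠ y in 𝓝[≠] x, h₁ y = h₂ y) : ∀ᶠ y in 𝓝 x, h₁ y = h₂ y := by
  have a₁ := analytic_chart hd₁
  have a₂ := analytic_chart hd₂
  have hfr : ∃ᶠ w in 𝓝[≠] (extChartAt 𝓘(ℂ) x x),
      (h₁ ∘ (extChartAt 𝓘(ℂ) x).symm) w = (h₂ ∘ (extChartAt 𝓘(ℂ) x).symm) w := by
    refine (tendsto_chart_ne x).frequently ?_
    have h1 : (extChartAt 𝓘(ℂ) x).source ∈ 𝓝 x := extChartAt_source_mem_nhds x
    refine (hf.and_eventually (nhdsWithin_le_nhds h1)).mono ?_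
    rintro y ⟨hy, hs⟩
    simp only [Function.comp_apply, (extChartAt 𝓘(ℂ) x).left_inv hs, hy]
  have hev := (a₁.frequently_eq_iff_eventually_eq a₂).1 hfr
  rw [← map_symm x, eventually_map]
  exact hev

/-- identity theorem -/
lemma ident_global [PreconnectedSpace R] {h₁ h₂ : R → ℂ}
    (hd₁ : MDifferentiable 𝓘(ℂ) 𝓘(ℂ) h₁) (hd₂ : MDifferentiable 𝓘(ℂ) 𝓘(ℂ) h₂)
    {x₀ : R} (h0 : ∀ᶠ y in 𝓝 x₀, h₁ y = h₂ y) (x : R) : h₁ x = h₂ x := by
  set A : Set R := {x | ∀ᶠ y in 𝓝 x, h₁ y = h₂ y} with hA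
  have hAo : IsOpen A := by
    rw [isOpen_iff_mem_nhds]
    intro y hy
    exact (eventually_eventually_nhds.2 hy : ∀ᶠ z in 𝓝 y, ∀ᶠ w in 𝓝 z, h₁ w = h₂ w)
  have hAc : IsClosed A := by
    rw [← closure_subset_iff_isClosed]
    intro y hy
    by_contra hyA
    apply hyA
    refine ident_local (Eventually.of_forall fun z => hd₁ z)
      (Eventually.of_forall fun z => hd₂ z) ?_
    rw [Filter.frequently_iff]
    intro U hU
    rw [mem_nhdsWithin_iff_exists_mem_nhds_inter] at hU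
    obtain ⟨V, hV, hVU⟩ := hU
    obtain ⟨z, hzV, hzA⟩ := mem_closure_iff_nhds.1 hy V hV
    refine ⟨z, hVU ⟨hzV, fun hzy => hyA (mem_singleton_iff.1 hzy ▸ hzA)⟩, ?_⟩
    exact (hzA : ∀ᶠ w in 𝓝 z, h₁ w = h₂ w).self_of_nhds
  have hAu : A = univ := IsClopen.eq_univ ⟨hAc, hAo⟩ ⟨x₀, h0⟩
  have : x ∈ A := hAu ▸ mem_univ x
  exact (this : ∀ᶠ w in 𝓝 x, h₁ w = h₂ w).self_of_nhds

end Pool.Agent.Results.MP_e6fbad_gt.UniqueInvolution

namespace Pool.Agent.Results.MP_e6fbad_gt.UniqueInvolution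

variable {R : Type*} [TopologicalSpace R] [ChartedSpace ℂ R] [IsManifold 𝓘(ℂ) 1 R]

lemma nebot (x : R) : (𝓝[≠] x).NeBot := (tendsto_symm_ne x).neBot

lemma not_loc_const [T2Space R] {π : R → ℂ} {τ : R → R}
    (fib : ∀ x y, π x = π y ↔ y = x ∨ y = τ x) (x : R) :
    ¬ ∀ᶠ y in 𝓝 x, π y = π x := by
  intro h
  have h2 : ∀ᶠ y in 𝓝[≠] x, False := by
    by_cases hx : τ x = x
    · filter_upwards [nhdsWithin_le_nhds h, self_mem_nhdsWithin] with y hy hne
      rcases (fib x y).1 hy.symm with h1 | h1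
      · exact hne h1
      · exact hne (h1.trans hx)
    · have h3 : {τ x}ᶜ ∈ 𝓝 x := isOpen_compl_singleton.mem_nhds (fun h4 => hx h4.symm)
      filter_upwards [nhdsWithin_le_nhds h, self_mem_nhdsWithin, nhdsWithin_le_nhds h3]
        with y hy hne hτ
      rcases (fib x y).1 hy.symm with h1 | h1
      · exact hne h1
      · exact hτ h1
  have := nebot x
  exact h2.exists.elim fun _ h => h

lemma open_at [T2Space R] {π : R → ℂ} {τ : R → R} (hπ : MDifferentiable 𝓘(ℂ) 𝓘(ℂ) π)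
    (fib : ∀ x y, π x = π y ↔ y = x ∨ y = τ x) (x : R) :
    𝓝 (π x) ≤ map π (𝓝 x) := by
  have a := analytic_chart (h := π) (x := x) (Eventually.of_forall fun y => hπ y)
  have hx : (π ∘ (extChartAt 𝓘(ℂ) x).symm) (extChartAt 𝓘(ℂ) x x) = π x := by
    simp
  rcases a.eventually_constant_or_nhds_le_map_nhds with h | h
  · exfalso
    apply not_loc_const fib x
    rw [← map_symm x, eventually_map]
    rw [hx] at h
    exact h
  · rw [hx] at h
    rw [← Filter.map_map, map_symm x] at h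
    exact h

lemma section_at {φ H : ℂ → ℂ} {G : ℂ → ℂ} {w : ℂ} (hφ : AnalyticAt ℂ φ w)
    (hH : AnalyticAt ℂ H w) (hne : deriv φ w ≠ 0) (hG : ∀ v, G (φ v) = H v) :
    DifferentiableAt ℂ G (φ w) := by
  have hs : HasStrictDerivAt φ (deriv φ w) w := hφ.hasStrictDerivAt
  set ψ := hs.localInverse φ (deriv φ w) w hne with hψ
  have h1 : HasStrictDerivAt ψ (deriv φ w)⁻¹ (φ w) := hs.to_localInverse hne
  have h2 : ∀ᶠ y in 𝓝 (φ w), φ (ψ y) = y :=
    (hs.hasStrictFDerivAt_equiv hne).eventually_right_inverse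
  have h3 : ψ (φ w) = w := (hs.hasStrictFDerivAt_equiv hne).localInverse_apply_image
  have h4 : G =ᶠ[𝓝 (φ w)] fun z => H (ψ z) := by
    filter_upwards [h2] with y hy
    rw [← hG, hy]
  refine DifferentiableAt.congr_of_eventuallyEq ?_ h4
  have h5 : DifferentiableAt ℂ H (ψ (φ w)) := by rw [h3]; exact hH.differentiableAt
  exact DifferentiableAt.comp (φ w) h5 h1.hasDerivAt.differentiableAt

lemma punct_diff [T2Space R] {π h : R → ℂ} {τ : R → R} {G : ℂ → ℂ}
    (hπ : MDifferentiable 𝓘(ℂ) 𝓘(ℂ) π)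
    (fib : ∀ x y, π x = π y ↔ y = x ∨ y = τ x) (x₀ : R)
    (hh : ∀ᶠ y in 𝓝 x₀, MDifferentiableAt 𝓘(ℂ) 𝓘(ℂ) h y)
    (hG : ∀ y, G (π y) = h y) :
    ∀ᶠ x in 𝓝[≠] x₀, DifferentiableAt ℂ G (π x) := by
  have a := analytic_chart (h := π) (x := x₀) (Eventually.of_forall fun y => hπ y)
  have b := analytic_chart hh
  set e := extChartAt 𝓘(ℂ) x₀ with he
  have hx : (π ∘ e.symm) (e x₀) = π x₀ := by simp [he]
  have key : ∀ᶠ w in 𝓝[≠] (e x₀), DifferentiableAt ℂ G ((π ∘ e.symm) w) := by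
    rcases a.deriv.eventually_eq_zero_or_eventually_ne_zero with h0 | h0
    · exfalso
      have h1 : ∀ᶠ w in 𝓝 (e x₀), (π ∘ e.symm) w = π x₀ := by
        have h2 := h0.and (a.eventually_analyticAt)
        rw [Metric.eventually_nhds_iff_ball] at h2
        obtain ⟨ε, hε, hb⟩ := h2
        filter_upwards [ball_mem_nhds (e x₀) hε] with w hw
        rw [← hx]
        refine IsOpen.is_const_of_deriv_eq_zero (s := ball (e x₀) ε) isOpen_ball
          (convex_ball _ _).isPreconnected ?_ ?_ hw (mem_ball_self hε)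
        · intro v hv
          exact (hb v hv).2.differentiableAt.differentiableWithinAt
        · intro v hv
          exact (hb v hv).1
      apply not_loc_const fib x₀
      rw [← map_symm x₀, eventually_map]
      exact h1
    · filter_upwards [h0, nhdsWithin_le_nhds a.eventually_analyticAt,
        nhdsWithin_le_nhds b.eventually_analyticAt] with w h1 h2 h3
      exact section_at h2 h3 h1 (fun v => hG _)
  have h1 : e.source ∈ 𝓝 x₀ := extChartAt_source_mem_nhds x₀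
  filter_upwards [(tendsto_chart_ne x₀).eventually key, nhdsWithin_le_nhds h1] with x hx1 hx2
  have h2 : e.symm (e x) = x := e.left_inv hx2
  simp only [Function.comp_apply] at hx1
  rw [he] at h2
  rw [h2] at hx1
  exact hx1

lemma G_analytic [T2Space R] {π h : R → ℂ} {τ : R → R} {G : ℂ → ℂ}
    (hπ : MDifferentiable 𝓘(ℂ) 𝓘(ℂ) π)
    (fib : ∀ x y, π x = π y ↔ y = x ∨ y = τ x) (x₀ : R)
    (hh : ∀ᶠ y in 𝓝 x₀, MDifferentiableAt 𝓘(ℂ) 𝓘(ℂ) h y)
    (hG : ∀ y, G (π y) = h y) : AnalyticAt ℂ G (π x₀) := by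
  have ho := open_at hπ fib x₀
  apply Complex.analyticAt_of_differentiable_on_punctured_nhds_of_continuousAt
  · have h1 := punct_diff hπ fib x₀ hh hG
    have h2 : ∀ᶠ x in 𝓝 x₀, π x ≠ π x₀ → DifferentiableAt ℂ G (π x) := by
      rw [eventually_nhdsWithin_iff] at h1
      filter_upwards [h1] with x hx hne
      exact hx (fun h3 => hne (by rw [mem_singleton_iff.1 h3]))
    have h3 : ∀ᶠ z in 𝓝 (π x₀), z ≠ π x₀ → DifferentiableAt ℂ G z := by
      have h4 : ∀ᶠ z in map π (𝓝 x₀), z ≠ π x₀ → DifferentiableAt ℂ G z := by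
        rw [eventually_map]; exact h2
      exact h4.filter_mono ho
    rw [eventually_nhdsWithin_iff]
    filter_upwards [h3] with z hz hne
    exact hz hne
  · have h1 : Tendsto h (𝓝 x₀) (𝓝 (h x₀)) := hh.self_of_nhds.continuousAt
    have h2 : Tendsto (G ∘ π) (𝓝 x₀) (𝓝 (G (π x₀))) := by
      rw [hG x₀]
      exact h1.congr (fun y => (hG y).symm)
    have h3 : Tendsto G (map π (𝓝 x₀)) (𝓝 (G (π x₀))) := by
      rw [tendsto_map'_iff]; exact h2
    exact h3.mono_left ho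

/-- behaviour at infinity -/
lemma at_infinity {G : ℂ → ℂ} {ρ C : ℝ} (hG : ∀ z, ρ < ‖z‖ → DifferentiableAt ℂ G z)
    (hb : ∀ z, ρ < ‖z‖ → ‖G z‖ ≤ C) (hz : ∀ r, ∃ z, r < ‖z‖ ∧ G z = 0) :
    ∃ r, ρ ≤ r ∧ ∀ z, r < ‖z‖ → G z = 0 := by
  set ρ' := max ρ 1 with hρ'
  have hρ'0 : 0 < ρ' := lt_of_lt_of_le one_pos (le_max_right _ _)
  set s : Set ℂ := ball 0 (ρ'⁻¹) with hs
  have hs0 : s ∈ 𝓝 (0 : ℂ) := ball_mem_nhds 0 (inv_pos.2 hρ'0)
  have hbig : ∀ ζ ∈ s \ {0}, ρ < ‖ζ⁻¹‖ := by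
    rintro ζ ⟨hζ, hζ0⟩
    rw [hs, mem_ball_zero_iff] at hζ
    rw [norm_inv]
    have : 0 < ‖ζ‖ := norm_pos_iff.2 hζ0
    have h2 := (lt_inv_comm₀ this hρ'0).1 hζ
    exact lt_of_le_of_lt (le_max_left _ _) h2
  set F : ℂ → ℂ := fun ζ => G ζ⁻¹ with hF
  have hFd : DifferentiableOn ℂ F (s \ {0}) := by
    intro ζ hζ
    have h1 : ζ ≠ 0 := hζ.2
    exact (DifferentiableAt.comp ζ (hG _ (hbig ζ hζ)) (differentiableAt_inv h1)).differentiableWithinAt
  have hFb : BddAbove (norm ∘ F '' (s \ {0})) := by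
    refine ⟨C, ?_⟩
    rintro _ ⟨ζ, hζ, rfl⟩
    exact hb _ (hbig ζ hζ)
  have hext := Complex.differentiableOn_update_limUnder_of_bddAbove hs0 hFd hFb
  set F' := Function.update F 0 (limUnder (𝓝[≠] 0) F) with hF'
  have hFa : AnalyticAt ℂ F' 0 := hext.analyticAt hs0
  have hfr : ∃ᶠ ζ in 𝓝[≠] (0 : ℂ), F' ζ = 0 := by
    rw [Filter.frequently_iff]
    intro U hU
    rw [mem_nhdsWithin_iff_exists_mem_nhds_inter] at hU
    obtain ⟨V, hV, hVU⟩ := hU
    obtain ⟨ε, hε, hεV⟩ := Metric.mem_nhds_iff.1 hV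
    obtain ⟨z, hz1, hz2⟩ := hz (max ε⁻¹ 1)
    have hz0 : 0 < ‖z‖ := lt_of_lt_of_le one_pos ((le_max_right _ _).trans hz1.le)
    have hzne : z ≠ 0 := norm_pos_iff.1 hz0
    have hzi : z⁻¹ ≠ 0 := inv_ne_zero hzne
    refine ⟨z⁻¹, hVU ⟨hεV ?_, hzi⟩, ?_⟩
    · rw [mem_ball_zero_iff, norm_inv]
      rw [inv_lt_comm₀ hz0 hε]
      exact lt_of_le_of_lt (le_max_left _ _) hz1
    · rw [hF', Function.update_of_ne hzi, hF]
      simp [hz2]
  have hev : ∀ᶠ ζ in 𝓝 (0 : ℂ), F' ζ = 0 := hFa.frequently_zero_iff_eventually_zero.1 hfr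
  obtain ⟨ε, hε, hεV⟩ := Metric.eventually_nhds_iff_ball.1 hev
  refine ⟨max ρ (max ε⁻¹ 1), le_max_left _ _, ?_⟩
  intro z hz1
  have hz2 : ε⁻¹ < ‖z‖ := lt_of_le_of_lt ((le_max_left _ _).trans (le_max_right _ _)) hz1
  have hz3 : 1 < ‖z‖ := lt_of_le_of_lt ((le_max_right _ _).trans (le_max_right _ _)) hz1
  have hz0 : 0 < ‖z‖ := one_pos.trans hz3
  have hzne : z ≠ 0 := norm_pos_iff.1 hz0
  have hzi : z⁻¹ ≠ 0 := inv_ne_zero hzne
  have h1 := hεV z⁻¹ (by
    rw [mem_ball_zero_iff, norm_inv, inv_lt_comm₀ hz0 hε]; exact hz2)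
  rw [hF', Function.update_of_ne hzi, hF] at h1
  simpa using h1

end Pool.Agent.Results.MP_e6fbad_gt.UniqueInvolution

namespace Pool.Agent.Results.MP_e6fbad_gt.UniqueInvolution

variable {R : Type*} [TopologicalSpace R] [ChartedSpace ℂ R] [IsManifold 𝓘(ℂ) 1 R]

theorem core [T2Space R] [PreconnectedSpace R] {τ₁ τ₂ : R → R}
    (hτ₁ : MDifferentiable 𝓘(ℂ) 𝓘(ℂ) τ₁) (hτ₂ : Continuous τ₂)
    (inv₁ : ∀ x, τ₁ (τ₁ x) = x)
    {π f : R → ℂ} (hπ : MDifferentiable 𝓘(ℂ) 𝓘(ℂ) π) (hf : MDifferentiable 𝓘(ℂ) 𝓘(ℂ) f)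
    (fib₁ : ∀ x y, π x = π y ↔ y = x ∨ y = τ₁ x)
    (fib₂ : ∀ x y, f x = f y ↔ y = x ∨ y = τ₂ x)
    {ρ : ℝ} (hρ : ∀ z, ρ < ‖z‖ → z ∈ range π)
    (hunb : ∀ r, ∃ x, τ₁ x = x ∧ r < ‖π x‖)
    (hdisc : ∀ x, τ₁ x = x → ∀ᶠ z in 𝓝[≠] (π x), ∀ y, τ₁ y = y → π y ≠ z)
    {w₀ : ℂ} {r : ℝ} (hr : 0 < r) (hK : IsCompact (f ⁻¹' closedBall w₀ r)) :
    ∀ x, τ₁ x = τ₂ x := by
  have hπc : Continuous π := hπ.continuous
  have hfc : Continuous f := hf.continuous
  have hτ₁c : Continuous τ₁ := hτ₁.continuous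
  have hπτ : ∀ x, π (τ₁ x) = π x := fun x => ((fib₁ x (τ₁ x)).2 (Or.inr rfl)).symm
  obtain ⟨ρ₁, hρ₁⟩ : ∃ ρ₁ : ℝ, ∀ x, ρ₁ < ‖π x‖ → r < ‖f x - w₀‖ := by
    have h1 := (hK.image hπc).isBounded
    obtain ⟨ρ₁, h2⟩ := h1.exists_norm_le
    refine ⟨ρ₁, fun x hx => ?_⟩
    by_contra h3
    push Not at h3
    have h4 : x ∈ f ⁻¹' closedBall w₀ r := by
      rw [mem_preimage, mem_closedBall, dist_eq_norm]; exact h3
    exact absurd (h2 _ (mem_image_of_mem π h4)) (not_le.2 hx)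
  set g : R → ℂ := fun x => (f x - w₀)⁻¹ with hg
  set h : R → ℂ := fun x => (g x - g (τ₁ x)) * (g x - g (τ₁ x)) with hh
  have hhτ : ∀ x, h (τ₁ x) = h x := by
    intro x
    simp only [hh, inv₁]
    ring
  classical
  set G : ℂ → ℂ := fun z => if hz : z ∈ range π then h hz.choose else 0 with hGdef
  have hG : ∀ x, G (π x) = h x := by
    intro x
    have hx : π x ∈ range π := mem_range_self x
    have h1 : G (π x) = h hx.choose := by rw [hGdef]; simp only [hx, dif_pos]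
    have key : ∀ y, π y = π x → h y = h x := by
      intro y hy
      rcases (fib₁ _ _).1 hy with h2 | h2
      · rw [h2]
      · rw [h2, hhτ]
    rw [h1]
    exact key _ hx.choose_spec
  have hgd : ∀ x, ρ₁ < ‖π x‖ → MDifferentiableAt 𝓘(ℂ) 𝓘(ℂ) g x := by
    intro x hx
    have h1 := hρ₁ x hx
    have h2 : f x - w₀ ≠ 0 := by
      intro h3
      rw [h3, norm_zero] at h1
      linarith
    have h3 : DifferentiableAt ℂ (fun w : ℂ => (w - w₀)⁻¹) (f x) :=
      (differentiableAt_id.sub_const w₀).inv h2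
    exact h3.mdifferentiableAt.comp x (hf x)
  have hgd' : ∀ x, ρ₁ < ‖π x‖ → MDifferentiableAt 𝓘(ℂ) 𝓘(ℂ) (fun y => g (τ₁ y)) x := by
    intro x hx
    have h1 := hgd (τ₁ x) (by rw [hπτ]; exact hx)
    exact h1.comp x (hτ₁ x)
  have hhd : ∀ x, ρ₁ < ‖π x‖ → MDifferentiableAt 𝓘(ℂ) 𝓘(ℂ) h x := by
    intro x hx
    have h1 := (hgd x hx).sub (hgd' x hx)
    exact h1.mul h1
  have hhe : ∀ x, ρ₁ < ‖π x‖ → ∀ᶠ y in 𝓝 x, MDifferentiableAt 𝓘(ℂ) 𝓘(ℂ) h y := by
    intro x hx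
    have h1 : {y | ρ₁ < ‖π y‖} ∈ 𝓝 x :=
      (isOpen_lt continuous_const (hπc.norm)).mem_nhds hx
    filter_upwards [h1] with y hy using hhd y hy
  have hgb : ∀ x, ρ₁ < ‖π x‖ → ‖g x‖ ≤ r⁻¹ := by
    intro x hx
    have h1 := hρ₁ x hx
    simp only [hg, norm_inv]
    exact inv_anti₀ hr h1.le
  have hhb : ∀ x, ρ₁ < ‖π x‖ → ‖h x‖ ≤ (2 * r⁻¹) * (2 * r⁻¹) := by
    intro x hx
    have h1 := hgb x hx
    have h2 := hgb (τ₁ x) (by rw [hπτ]; exact hx)
    have h3 : ‖g x - g (τ₁ x)‖ ≤ 2 * r⁻¹ := by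
      refine (norm_sub_le _ _).trans ?_
      linarith
    simp only [hh, norm_mul]
    exact mul_le_mul h3 h3 (norm_nonneg _) (by positivity)
  obtain ⟨r₂, hr₂, hz⟩ := at_infinity (G := G) (ρ := max ρ ρ₁) (C := (2 * r⁻¹) * (2 * r⁻¹))
    (by
      intro z hz
      obtain ⟨x, rfl⟩ := hρ z (lt_of_le_of_lt (le_max_left _ _) hz)
      exact (G_analytic hπ fib₁ x (hhe x (lt_of_le_of_lt (le_max_right _ _) hz))
        hG).differentiableAt)
    (by
      intro z hz
      obtain ⟨x, rfl⟩ := hρ z (lt_of_le_of_lt (le_max_left _ _) hz)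
      rw [hG x]
      exact hhb x (lt_of_le_of_lt (le_max_right _ _) hz))
    (by
      intro r'
      obtain ⟨x, hx1, hx2⟩ := hunb r'
      refine ⟨π x, hx2, ?_⟩
      rw [hG x]
      simp only [hh, hx1]
      ring)
  have hff : ∀ x, r₂ < ‖π x‖ → f x = f (τ₁ x) := by
    intro x hx
    have h1 := hz _ hx
    rw [hG x] at h1
    simp only [hh] at h1
    have h2 : g x - g (τ₁ x) = 0 := by
      rcases mul_eq_zero.1 h1 with h | h <;> exact h
    have h3 : (f x - w₀)⁻¹ = (f (τ₁ x) - w₀)⁻¹ := sub_eq_zero.1 h2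
    have h4 := inv_injective h3
    linear_combination h4
  obtain ⟨x₀, -, hx₀⟩ := hunb r₂
  have hall : ∀ x, f x = f (τ₁ x) := by
    refine ident_global hf (hf.comp hτ₁) (x₀ := x₀) ?_
    have h1 : {y | r₂ < ‖π y‖} ∈ 𝓝 x₀ :=
      (isOpen_lt continuous_const (hπc.norm)).mem_nhds hx₀
    filter_upwards [h1] with y hy using hff y hy
  have hne : ∀ x, τ₁ x ≠ x → τ₁ x = τ₂ x := by
    intro x hx
    rcases (fib₂ x (τ₁ x)).1 (hall x) with h1 | h1
    · exact absurd h1 hx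
    · exact h1
  intro x
  by_cases hx : τ₁ x = x
  · have hcl : IsClosed {y | τ₁ y = τ₂ y} := isClosed_eq hτ₁c hτ₂
    have hsub : {y | τ₁ y ≠ y} ⊆ {y | τ₁ y = τ₂ y} := fun y hy => hne y hy
    have hxc : x ∈ closure {y | τ₁ y ≠ y} := by
      by_contra hcon
      have h1 : ∀ᶠ y in 𝓝 x, τ₁ y = y := by
        have h2 : (closure {y | τ₁ y ≠ y})ᶜ ∈ 𝓝 x := isClosed_closure.isOpen_compl.mem_nhds hcon
        filter_upwards [h2] with y hy
        by_contra h3
        exact hy (subset_closure h3)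
      have h2 : ∀ᶠ z in 𝓝 (π x), ∃ y, τ₁ y = y ∧ π y = z := by
        have h3 : ∀ᶠ z in map π (𝓝 x), ∃ y, τ₁ y = y ∧ π y = z := by
          rw [eventually_map]
          filter_upwards [h1] with y hy using ⟨y, hy, rfl⟩
        exact h3.filter_mono (open_at hπ fib₁ x)
      have h4 := (nhdsWithin_le_nhds h2 : ∀ᶠ z in 𝓝[≠] (π x), ∃ y, τ₁ y = y ∧ π y = z)
      obtain ⟨z, hz1, hz2⟩ := (Filter.Eventually.and h4 (hdisc x hx)).exists
      obtain ⟨y, hy1, hy2⟩ := hz1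
      exact hz2 y hy1 hy2
    exact closure_minimal hsub hcl hxc
  · exact hne x hx

end Pool.Agent.Results.MP_e6fbad_gt.UniqueInvolution

namespace Pool.Agent.Results.MP_e6fbad_gt.UniqueInvolution

/-- The affine coordinate of a point of the Riemann sphere (and `0` at `∞`). -/
noncomputable def coord (z : OnePoint ℂ) : ℂ := z.elim 0 (fun w => w)

/-- The coordinate `1/z` near `∞`: it is `0` at `∞`. -/
noncomputable def coordInf (z : OnePoint ℂ) : ℂ := z.elim 0 (fun w => w⁻¹)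

variable {R : Type*} [TopologicalSpace R] [ChartedSpace ℂ R] [IsManifold 𝓘(ℂ) 1 R]

/-- Holomorphic maps from a Riemann surface to the Riemann sphere `OnePoint ℂ`. -/
def HolSphere (π : R → OnePoint ℂ) : Prop :=
  Continuous π ∧
  (∀ x, π x ≠ OnePoint.infty → MDifferentiableAt 𝓘(ℂ) 𝓘(ℂ) (fun y => coord (π y)) x) ∧
  (∀ x, π x ≠ ((0 : ℂ) : OnePoint ℂ) →
    MDifferentiableAt 𝓘(ℂ) 𝓘(ℂ) (fun y => coordInf (π y)) x)

@[simp] lemma coord_coe (w : ℂ) : coord (w : OnePoint ℂ) = w := rfl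
@[simp] lemma coord_inf : coord OnePoint.infty = 0 := rfl
@[simp] lemma coordInf_coe (w : ℂ) : coordInf (w : OnePoint ℂ) = w⁻¹ := rfl
@[simp] lemma coordInf_inf : coordInf OnePoint.infty = 0 := rfl

/-- coordinate sending `c` to infinity -/
noncomputable def kapC (c : ℂ) (z : OnePoint ℂ) : ℂ := z.elim 0 (fun w => (w - c)⁻¹)

@[simp] lemma kapC_coe (c w : ℂ) : kapC c (w : OnePoint ℂ) = (w - c)⁻¹ := rfl
@[simp] lemma kapC_inf (c : ℂ) : kapC c OnePoint.infty = 0 := rfl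

open Classical in
/-- inverse of `kapC` -/
noncomputable def iotC (c : ℂ) (w : ℂ) : OnePoint ℂ :=
  if w = 0 then OnePoint.infty else ((c + w⁻¹ : ℂ) : OnePoint ℂ)

lemma iotC_cont (c : ℂ) : Continuous (iotC c) := by
  rw [continuous_iff_continuousAt]
  intro w
  by_cases hw : w = 0
  · subst hw
    have h0 : iotC c 0 = OnePoint.infty := by simp [iotC]
    rw [ContinuousAt, h0]
    have h1 : Tendsto (fun w : ℂ => c + w⁻¹) (𝓝[≠] 0) (cocompact ℂ) := by
      rw [← Metric.cobounded_eq_cocompact]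
      have h2 : Tendsto (fun w : ℂ => w⁻¹) (𝓝[≠] 0) (Bornology.cobounded ℂ) :=
        Filter.tendsto_inv₀_nhdsNE_zero
      rw [← tendsto_norm_atTop_iff_cobounded] at h2 ⊢
      refine tendsto_atTop_mono (fun w => ?_) (tendsto_atTop_add_const_right _ (-‖c‖) h2)
      have := norm_sub_norm_le (w⁻¹) (-c)
      rw [norm_neg, sub_neg_eq_add, add_comm (w⁻¹) c] at this
      linarith
    have h2 : Tendsto (fun w : ℂ => ((c + w⁻¹ : ℂ) : OnePoint ℂ)) (𝓝[≠] 0)
        (𝓝 OnePoint.infty) := by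
      have h3 : Tendsto ((↑) : ℂ → OnePoint ℂ) (cocompact ℂ) (𝓝 OnePoint.infty) := by
        have := OnePoint.tendsto_coe_infty (X := ℂ)
        rwa [coclosedCompact_eq_cocompact] at this
      exact h3.comp h1
    have h3 : Tendsto (iotC c) (𝓝[≠] 0) (𝓝 OnePoint.infty) := by
      refine h2.congr' ?_
      filter_upwards [self_mem_nhdsWithin] with v hv
      simp only [iotC, if_neg (show ¬ v = 0 from hv)]
    rw [← nhdsNE_sup_pure (0 : ℂ)]
    refine Tendsto.sup h3 ?_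
    rw [tendsto_pure_left]
    intro s hs
    rw [h0]
    exact mem_of_mem_nhds hs
  · have h1 : iotC c =ᶠ[𝓝 w] fun v => ((c + v⁻¹ : ℂ) : OnePoint ℂ) := by
      filter_upwards [isOpen_compl_singleton.mem_nhds (show w ∈ ({0} : Set ℂ)ᶜ from hw)] with v hv
      simp only [iotC, if_neg (show ¬ v = 0 from hv)]
    rw [continuousAt_congr h1]
    have h2 : ContinuousAt (fun v : ℂ => c + v⁻¹) w :=
      continuousAt_const.add (continuousAt_inv₀ hw)
    exact (OnePoint.continuous_coe.continuousAt).comp h2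

lemma exists_chart (R : Type*) [TopologicalSpace R] [ChartedSpace ℂ R] (q : OnePoint ℂ) :
    ∃ (κ : OnePoint ℂ → ℂ) (ι : ℂ → OnePoint ℂ),
      Continuous ι ∧ (∀ w, κ (ι w) = w) ∧ (∀ z, z ≠ q → ι (κ z) = z) ∧ (∀ w, ι w ≠ q) ∧
      ∀ (π : R → OnePoint ℂ), HolSphere π → (∀ x, π x ≠ q) →
        MDifferentiable 𝓘(ℂ) 𝓘(ℂ) (fun x => κ (π x)) := by
  induction q using OnePoint.rec with
  | infty =>
    refine ⟨coord, (↑), OnePoint.continuous_coe, fun w => rfl, ?_, ?_, ?_⟩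
    · intro z hz
      induction z using OnePoint.rec with
      | infty => exact absurd rfl hz
      | coe w => rfl
    · intro w; exact OnePoint.coe_ne_infty w
    · intro π hπ hq x
      exact hπ.2.1 x (hq x)
  | coe c =>
    refine ⟨kapC c, iotC c, iotC_cont c, ?_, ?_, ?_, ?_⟩
    · intro w
      by_cases hw : w = 0
      · simp [iotC, hw]
      · simp [iotC, hw]
    · intro z hz
      induction z using OnePoint.rec with
      | infty => simp [iotC]
      | coe w =>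
        have h1 : w - c ≠ 0 := by
          intro h2
          apply hz
          rw [sub_eq_zero.1 h2]
        simp [iotC, h1]
    · intro w
      by_cases hw : w = 0
      · simp [iotC, hw]
      · simp only [iotC, hw, if_false]
        intro h1
        have h2 := OnePoint.coe_injective h1
        have h3 : w⁻¹ = 0 := by linear_combination h2
        exact hw (inv_eq_zero.1 h3)
    · intro π hπ hq x
      obtain ⟨hc, h1, h2⟩ := hπ
      by_cases hx : π x = OnePoint.infty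
      · -- near infinity
        have hne : π x ≠ ((0 : ℂ) : OnePoint ℂ) := by rw [hx]; exact OnePoint.infty_ne_coe 0
        have hu := h2 x hne
        have hux : coordInf (π x) = 0 := by rw [hx]; rfl
        have hev : ∀ᶠ y in 𝓝 x, π y ≠ ((0 : ℂ) : OnePoint ℂ) :=
          hc.continuousAt.eventually_ne hne
        have hd : DifferentiableAt ℂ (fun u : ℂ => u / (1 - c * u)) (coordInf (π x)) := by
          rw [hux]
          refine DifferentiableAt.div differentiableAt_id ?_ ?_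
          · exact (differentiableAt_const _).sub ((differentiableAt_const _).mul differentiableAt_id)
          · simp
        have hcomp : MDifferentiableAt 𝓘(ℂ) 𝓘(ℂ)
            (fun y => coordInf (π y) / (1 - c * coordInf (π y))) x :=
          hd.mdifferentiableAt.comp x hu
        refine hcomp.congr_of_eventuallyEq ?_
        filter_upwards [hev] with y hy
        generalize π y = z at hy ⊢
        induction z using OnePoint.rec with
        | infty => simp
        | coe w =>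
          have hw : w ≠ 0 := fun h3 => hy (by rw [h3])
          simp only [kapC_coe, coordInf_coe]
          by_cases hwc : w - c = 0
          · have : w = c := sub_eq_zero.1 hwc
            subst this
            simp [hw]
          · have h4 : 1 - c * w⁻¹ ≠ 0 := by
              intro h5
              apply hwc
              field_simp at h5
              simpa using h5
            field_simp
      · have hu := h1 x hx
        have hev : ∀ᶠ y in 𝓝 x, π y ≠ OnePoint.infty := hc.continuousAt.eventually_ne hx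
        have hne : coord (π x) - c ≠ 0 := by
          have h3 := hq x
          generalize π x = z at h3 hx ⊢
          induction z using OnePoint.rec with
          | infty => exact absurd rfl hx
          | coe w =>
            intro h4
            apply h3
            rw [coord_coe] at h4
            rw [sub_eq_zero.1 h4]
        have hd : DifferentiableAt ℂ (fun u : ℂ => (u - c)⁻¹) (coord (π x)) :=
          (differentiableAt_id.sub_const c).inv hne
        have hcomp : MDifferentiableAt 𝓘(ℂ) 𝓘(ℂ) (fun y => (coord (π y) - c)⁻¹) x :=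
          MDifferentiableAt.comp (g := fun u : ℂ => (u - c)⁻¹) (f := fun y => coord (π y)) x
            hd.mdifferentiableAt hu
        refine hcomp.congr_of_eventuallyEq ?_
        filter_upwards [hev] with y hy
        generalize π y = z at hy ⊢
        induction z using OnePoint.rec with
        | infty => exact absurd rfl hy
        | coe w => rfl

end Pool.Agent.Results.MP_e6fbad_gt.UniqueInvolution

namespace Pool.Agent.Results.MP_e6fbad_gt.UniqueInvolution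

variable {R : Type*} [TopologicalSpace R] [ChartedSpace ℂ R] [IsManifold 𝓘(ℂ) 1 R]

/-- `HyperellipticData τ B L π`: the set `B` is an infinite discrete subset of the sphere with set
of accumulation points `L`, the complement of `L` is connected, `π` is a holomorphic degree two
branched covering from `R` onto the complement of `L` whose set of branch values is `B`, and
`τ` is the deck transformation of order two. -/
structure HyperellipticData (τ : R → R) (B L : Set (OnePoint ℂ)) (π : R → OnePoint ℂ) :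
    Prop where
  infinite : B.Infinite
  limit_set : L = derivedSet B
  discrete : Disjoint B L
  connected : IsConnected Lᶜ
  holomorphic : HolSphere π
  range_eq : range π = Lᶜ
  proper : ∀ K : Set (OnePoint ℂ), IsCompact K → K ⊆ Lᶜ → IsCompact (π ⁻¹' K)
  deck_holomorphic : MDifferentiable 𝓘(ℂ) 𝓘(ℂ) τ
  deck_involution : ∀ x, τ (τ x) = x
  deck_ne : τ ≠ id
  fibres : ∀ x y, π x = π y ↔ y = x ∨ y = τ x
  branch_values : B = {z | ∃ x, τ x = x ∧ π x = z}

/-- `τ` is a hyperelliptic involution of `R` with limit set `L`. -/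
def IsHyperellipticInvolution (τ : R → R) (L : Set (OnePoint ℂ)) : Prop :=
  ∃ B π, HyperellipticData τ B L π

/-- A Riemann surface `R` (a connected Hausdorff complex manifold of dimension one) with a
hyperelliptic involution whose limit set is finite has no other hyperelliptic involution. -/
theorem result {R : Type*} [TopologicalSpace R] [ChartedSpace ℂ R] [IsManifold 𝓘(ℂ) 1 R]
    [T2Space R] [ConnectedSpace R] (τ₁ τ₂ : R → R) (L₁ L₂ : Set (OnePoint ℂ))
    (h₁ : IsHyperellipticInvolution τ₁ L₁) (hfin : L₁.Finite)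
    (h₂ : IsHyperellipticInvolution τ₂ L₂) : τ₁ = τ₂ := by
  obtain ⟨B₁, π₁, d₁⟩ := h₁
  obtain ⟨B₂, π₂, d₂⟩ := h₂
  -- a puncture for each
  obtain ⟨q, hq⟩ : ∃ q, q ∈ L₁ := by
    obtain ⟨q, hq⟩ := d₁.infinite.exists_accPt_principal
    exact ⟨q, by rw [d₁.limit_set]; exact hq⟩
  obtain ⟨b, hb⟩ : ∃ q, q ∈ L₂ := by
    obtain ⟨q, hq⟩ := d₂.infinite.exists_accPt_principal
    exact ⟨q, by rw [d₂.limit_set]; exact hq⟩
  have hq₁ : ∀ x, π₁ x ≠ q := by
    intro x hx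
    have : π₁ x ∈ L₁ᶜ := by rw [← d₁.range_eq]; exact mem_range_self x
    exact this (hx ▸ hq)
  have hb₂ : ∀ x, π₂ x ≠ b := by
    intro x hx
    have : π₂ x ∈ L₂ᶜ := by rw [← d₂.range_eq]; exact mem_range_self x
    exact this (hx ▸ hb)
  obtain ⟨κ, ι, hι, hκι, hικ, hιq, hhol⟩ := exists_chart R q
  obtain ⟨κ', ι', hι', hκι', hικ', hιb, hhol'⟩ := exists_chart R b
  have hκinj : ∀ x y, κ (π₁ x) = κ (π₁ y) ↔ π₁ x = π₁ y := by
    intro x y
    refine ⟨fun h => ?_, fun h => by rw [h]⟩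
    rw [← hικ _ (hq₁ x), h, hικ _ (hq₁ y)]
  have hκinj' : ∀ x y, κ' (π₂ x) = κ' (π₂ y) ↔ π₂ x = π₂ y := by
    intro x y
    refine ⟨fun h => ?_, fun h => by rw [h]⟩
    rw [← hικ' _ (hb₂ x), h, hικ' _ (hb₂ y)]
  have hπ : MDifferentiable 𝓘(ℂ) 𝓘(ℂ) (fun x => κ (π₁ x)) := hhol π₁ d₁.holomorphic hq₁
  have hf : MDifferentiable 𝓘(ℂ) 𝓘(ℂ) (fun x => κ' (π₂ x)) := hhol' π₂ d₂.holomorphic hb₂
  -- points near infinity are values
  obtain ⟨ρ, hρ⟩ : ∃ ρ : ℝ, ∀ z, ρ < ‖z‖ → z ∈ range (fun x => κ (π₁ x)) := by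
    obtain ⟨ρ, hρ⟩ := (hfin.image κ).isBounded.exists_norm_le
    refine ⟨ρ, fun z hz => ?_⟩
    have h1 : ι z ∉ L₁ := by
      intro h2
      have h3 := hρ (κ (ι z)) (mem_image_of_mem κ h2)
      rw [hκι] at h3
      exact absurd h3 (not_le.2 hz)
    have h2 : ι z ∈ range π₁ := by rw [d₁.range_eq]; exact h1
    obtain ⟨x, hx⟩ := h2
    exact ⟨x, by simp only [hx, hκι]⟩
  have hunb : ∀ r, ∃ x, τ₁ x = x ∧ r < ‖κ (π₁ x)‖ := by
    intro r
    have hacc : AccPt q (𝓟 B₁) := by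
      have := hq
      rw [d₁.limit_set] at this
      exact this
    have hopen : IsOpen (ι '' closedBall 0 r)ᶜ :=
      ((isCompact_closedBall (0 : ℂ) r).image hι).isClosed.isOpen_compl
    have hqm : q ∈ (ι '' closedBall 0 r)ᶜ := by
      rintro ⟨w, -, hw⟩
      exact hιq w hw
    rw [accPt_iff_nhds] at hacc
    obtain ⟨y, ⟨hyU, hyB⟩, hyq⟩ := hacc _ (hopen.mem_nhds hqm)
    rw [d₁.branch_values] at hyB
    obtain ⟨x, hx1, hx2⟩ := hyB
    refine ⟨x, hx1, ?_⟩
    by_contra hcon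
    push Not at hcon
    apply hyU
    refine ⟨κ (π₁ x), by rw [mem_closedBall_zero_iff]; exact hcon, ?_⟩
    rw [hικ _ (hq₁ x), hx2]
  have hdisc : ∀ x, τ₁ x = x → ∀ᶠ z in 𝓝[≠] (κ (π₁ x)), ∀ y, τ₁ y = y → κ (π₁ y) ≠ z := by
    intro x hx
    have hxB : π₁ x ∈ B₁ := by rw [d₁.branch_values]; exact ⟨x, hx, rfl⟩
    have hxL : π₁ x ∉ derivedSet B₁ := by
      rw [← d₁.limit_set]
      exact Set.disjoint_left.1 d₁.discrete hxB
    have hev : ∀ᶠ u in 𝓝[≠] (π₁ x), u ∉ B₁ := by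
      have h1 : ¬ AccPt (π₁ x) (𝓟 B₁) := hxL
      rw [accPt_iff_frequently_nhdsNE] at h1
      simpa [Filter.not_frequently] using h1
    have htend : Tendsto ι (𝓝[≠] (κ (π₁ x))) (𝓝[≠] (π₁ x)) := by
      rw [tendsto_nhdsWithin_iff]
      constructor
      · have h1 : Tendsto ι (𝓝 (κ (π₁ x))) (𝓝 (ι (κ (π₁ x)))) := hι.continuousAt
        rw [hικ _ (hq₁ x)] at h1
        exact h1.mono_left nhdsWithin_le_nhds
      · filter_upwards [self_mem_nhdsWithin] with v hv h2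
        apply hv
        have h3 : κ (ι v) = κ (π₁ x) := by rw [mem_singleton_iff.1 h2]
        rw [hκι] at h3
        exact h3
    filter_upwards [htend.eventually hev] with z hz y hy hyz
    apply hz
    rw [← hyz, hικ _ (hq₁ y), d₁.branch_values]
    exact ⟨y, hy, rfl⟩
  -- the compact set for the second projection
  obtain ⟨w₀, r, hr, hK⟩ : ∃ (w₀ : ℂ) (r : ℝ), 0 < r ∧
      IsCompact ((fun x => κ' (π₂ x)) ⁻¹' closedBall w₀ r) := by
    obtain ⟨x⟩ : Nonempty R := inferInstance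
    have hLc : IsClosed L₂ := by rw [d₂.limit_set]; exact isClosed_derivedSet B₂
    have hLo : IsOpen (ι' ⁻¹' L₂ᶜ) := hLc.isOpen_compl.preimage hι'
    have hmem : κ' (π₂ x) ∈ ι' ⁻¹' L₂ᶜ := by
      rw [mem_preimage, hικ' _ (hb₂ x), ← d₂.range_eq]
      exact mem_range_self x
    obtain ⟨r, hr, hrs⟩ := Metric.nhds_basis_closedBall.mem_iff.1 (hLo.mem_nhds hmem)
    refine ⟨κ' (π₂ x), r, hr, ?_⟩
    have h1 : IsCompact (ι' '' closedBall (κ' (π₂ x)) r) :=
      (isCompact_closedBall _ _).image hι'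
    have h2 : ι' '' closedBall (κ' (π₂ x)) r ⊆ L₂ᶜ := image_subset_iff.2 hrs
    have h3 := d₂.proper _ h1 h2
    convert h3 using 1
    ext y
    constructor
    · intro hy
      exact ⟨κ' (π₂ y), hy, hικ' _ (hb₂ y)⟩
    · rintro ⟨w, hw, hwy⟩
      simp only [mem_preimage]
      rw [← hwy, hκι']
      exact hw
  funext x
  refine core d₁.deck_holomorphic d₂.deck_holomorphic.continuous d₁.deck_involution hπ hf ?_ ?_
    hρ hunb hdisc hr hK x
  · intro x y
    rw [hκinj, d₁.fibres]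
  · intro x y
    rw [hκinj', d₂.fibres]

end Pool.Agent.Results.MP_e6fbad_gt.UniqueInvolution
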